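import Mathlib
import Pool.Agent.TH161.LW.Cells
import Pool.Agent.TH161.LW.Info3

/-!
# Large tournaments with a margin: a linear programming bound

A family of `N` vectors of length at most `√D` whose pairwise values of an alternating form of norm
one are at least `δ` in absolute value satisfies `log N ≤ π D / δ`.  With the Gram matrix `G` and the
matrix `B` of the form, `σ G + i τ B` is positive semidefinite for `|τ| ≤ σ`, so that the sum of the
entries of its entrywise exponential is at least `N ^ 2` (Schur).  One takes `σ = π / δ` and integrates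
over `τ = θ / δ` with the weight `sin θ` on `[0, π]`: the integral `∫ cos (θ y) sin θ dθ` equals
`(1 + cos (π y)) / (1 - y²)`, which is not positive for `|y| ≥ 1`, so only the diagonal is left.
-/

set_option autoImplicit false

open Finset
open scoped Classical ComplexOrder

namespace Pool.Agent.J4H63.BR

section schur

variable {n : Type*} [Fintype n]

/-- the sum of all entries of a positive semidefinite matrix -/
lemma sum_entries_nonneg {K : Matrix n n ℂ} (hK : K.PosSemidef) : 0 ≤ (∑ i, ∑ j, K i j).re := by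
  have h := hK.dotProduct_mulVec_nonneg (fun _ => 1)
  have h2 : star (fun _ : n => (1 : ℂ)) ⬝ᵥ (K.mulVec fun _ => 1) = ∑ i, ∑ j, K i j := by
    simp [dotProduct, Matrix.mulVec]
  rw [h2] at h
  exact (Complex.le_def.mp h).1

/-- entrywise powers -/
lemma pow_psd {K : Matrix n n ℂ} (hK : K.PosSemidef) (p : ℕ) :
    (Matrix.of fun i j => (K i j) ^ p).PosSemidef := by
  induction p with
  | zero =>
    refine Matrix.PosSemidef.of_dotProduct_mulVec_nonneg ?_ fun x => ?_
    · ext i j
      simp [Matrix.conjTranspose_apply]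
    · have h2 : star x ⬝ᵥ ((Matrix.of fun i j => (K i j) ^ 0).mulVec x) =
          star (∑ i, x i) * ∑ i, x i := by
        simp only [dotProduct, Matrix.mulVec, Matrix.of_apply, pow_zero, one_mul, star_sum,
          Pi.star_apply]
        rw [← Finset.sum_mul]
      rw [h2]
      exact star_mul_self_nonneg _
  | succ p ih =>
    have h := ih.hadamard hK
    have h3 : (Matrix.of fun i j => (K i j) ^ (p + 1)) =
        (Matrix.of fun i j => (K i j) ^ p).hadamard K := by
      ext i j
      simp [Matrix.hadamard_apply, pow_succ]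
    rw [h3]
    exact h

/-- the sum of the entries of the entrywise exponential of a positive semidefinite matrix -/
lemma sum_exp_ge {K : Matrix n n ℂ} (hK : K.PosSemidef) :
    ((Fintype.card n : ℝ)) ^ 2 ≤ ∑ i, ∑ j, (Complex.exp (K i j)).re := by
  have h1 : HasSum (fun p : ℕ => ∑ i, ∑ j, ((K i j) ^ p / (p.factorial : ℂ)).re)
      (∑ i, ∑ j, (Complex.exp (K i j)).re) := by
    refine hasSum_sum fun i _ => hasSum_sum fun j _ => ?_
    have h2 : HasSum (fun p : ℕ => (K i j) ^ p / (p.factorial : ℂ)) (Complex.exp (K i j)) := by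
      rw [Complex.exp_eq_exp_ℂ]
      exact NormedSpace.expSeries_div_hasSum_exp (K i j)
    exact Complex.hasSum_re h2
  have h3 : ∀ p : ℕ, 0 ≤ ∑ i, ∑ j, ((K i j) ^ p / (p.factorial : ℂ)).re := by
    intro p
    have h4 := sum_entries_nonneg (pow_psd hK p)
    have h5 : ∑ i, ∑ j, ((K i j) ^ p / (p.factorial : ℂ)).re =
        (∑ i, ∑ j, (Matrix.of fun i j => (K i j) ^ p) i j).re / p.factorial := by
      simp only [Complex.re_sum, Matrix.of_apply, Finset.sum_div]
      refine Finset.sum_congr rfl fun i _ => Finset.sum_congr rfl fun j _ => ?_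
      rw [Complex.div_natCast_re]
    rw [h5]
    positivity
  have h6 := sum_le_hasSum {0} (fun p _ => h3 p) h1
  simpa [sq] using h6

end schur

section form

variable {V : Type*} [NormedAddCommGroup V] [InnerProductSpace ℝ V]

/-- the matrix `σ G + i τ B` is positive semidefinite -/
lemma psd {β : Type*} [Fintype β] (B : V →ₗ[ℝ] V →ₗ[ℝ] ℝ) (hB : ∀ v w, |B v w| ≤ ‖v‖ * ‖w‖)
    (z : β → V) (hanti : ∀ x y, B (z x) (z y) = - B (z y) (z x)) {σ τ : ℝ} (hτ : |τ| ≤ σ) :
    (Matrix.of fun i j => (((σ * inner ℝ (z i) (z j) : ℝ) : ℂ) +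
      ((τ * B (z i) (z j) : ℝ) : ℂ) * Complex.I)).PosSemidef := by
  have hσ : 0 ≤ σ := (abs_nonneg _).trans hτ
  have hherm : (Matrix.of fun i j => (((σ * inner ℝ (z i) (z j) : ℝ) : ℂ) +
      ((τ * B (z i) (z j) : ℝ) : ℂ) * Complex.I)).IsHermitian := by
    ext i j
    simp only [Matrix.conjTranspose_apply, Matrix.of_apply, star_add, star_mul, Complex.star_def,
      Complex.conj_ofReal, Complex.conj_I]
    rw [hanti j i, real_inner_comm]
    push_cast
    ring
  refine Matrix.PosSemidef.of_dotProduct_mulVec_nonneg hherm fun x => ?_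
  rw [Complex.le_def]
  constructor
  · -- the real part
    obtain ⟨A, hA⟩ : ∃ A : V, A = ∑ i, (x i).re • z i := ⟨_, rfl⟩
    obtain ⟨A', hA'⟩ : ∃ A' : V, A' = ∑ i, (x i).im • z i := ⟨_, rfl⟩
    have h1 : (star x ⬝ᵥ ((Matrix.of fun i j => (((σ * inner ℝ (z i) (z j) : ℝ) : ℂ) +
      ((τ * B (z i) (z j) : ℝ) : ℂ) * Complex.I)).mulVec x)).re =
        σ * (inner ℝ A A + inner ℝ A' A') - 2 * τ * B A A' := by
      have e1 : inner ℝ A A = ∑ i, ∑ j, (x i).re * (x j).re * inner ℝ (z i) (z j) := by
        rw [hA, sum_inner]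
        refine Finset.sum_congr rfl fun i _ => ?_
        rw [inner_sum]
        refine Finset.sum_congr rfl fun j _ => ?_
        rw [real_inner_smul_left, real_inner_smul_right]
        ring
      have e2 : inner ℝ A' A' = ∑ i, ∑ j, (x i).im * (x j).im * inner ℝ (z i) (z j) := by
        rw [hA', sum_inner]
        refine Finset.sum_congr rfl fun i _ => ?_
        rw [inner_sum]
        refine Finset.sum_congr rfl fun j _ => ?_
        rw [real_inner_smul_left, real_inner_smul_right]
        ring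
      have e3 : B A A' = ∑ i, ∑ j, (x i).re * (x j).im * B (z i) (z j) := by
        rw [hA, hA']
        simp only [map_sum, LinearMap.sum_apply, map_smul, LinearMap.smul_apply, smul_eq_mul,
          Finset.mul_sum]
        rw [Finset.sum_comm]
        refine Finset.sum_congr rfl fun i _ => Finset.sum_congr rfl fun j _ => ?_
        ring
      have e4 : B A A' = - ∑ i, ∑ j, (x i).im * (x j).re * B (z i) (z j) := by
        rw [e3, Finset.sum_comm, ← Finset.sum_neg_distrib]
        refine Finset.sum_congr rfl fun i _ => ?_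
        rw [← Finset.sum_neg_distrib]
        refine Finset.sum_congr rfl fun j _ => ?_
        rw [hanti j i]
        ring
      have e5 : 2 * τ * B A A' = τ * (∑ i, ∑ j, (x i).re * (x j).im * B (z i) (z j)) -
          τ * ∑ i, ∑ j, (x i).im * (x j).re * B (z i) (z j) := by
        rw [← e3]
        linear_combination τ * e4
      rw [e5, e1, e2]
      simp only [dotProduct, Matrix.mulVec, Matrix.of_apply, Complex.re_sum, Finset.mul_sum,
        mul_add]
      rw [← Finset.sum_sub_distrib, ← Finset.sum_add_distrib, ← Finset.sum_sub_distrib]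
      refine Finset.sum_congr rfl fun i _ => ?_
      rw [← Finset.sum_sub_distrib, ← Finset.sum_add_distrib, ← Finset.sum_sub_distrib]
      refine Finset.sum_congr rfl fun j _ => ?_
      simp only [Pi.star_apply, Complex.star_def, Complex.mul_re, Complex.conj_re, Complex.conj_im,
        Complex.add_re, Complex.add_im, Complex.mul_im, Complex.ofReal_re, Complex.ofReal_im,
        Complex.I_re, Complex.I_im]
      ring
    rw [h1]
    have h2 : |2 * τ * B A A'| ≤ 2 * σ * (‖A‖ * ‖A'‖) := by
      rw [abs_mul, abs_mul, abs_of_pos (show (0 : ℝ) < 2 by norm_num)]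
      exact mul_le_mul (mul_le_mul_of_nonneg_left hτ (by norm_num)) (hB _ _) (abs_nonneg _)
        (by positivity)
    have h3 := le_abs_self (2 * τ * B A A')
    rw [real_inner_self_eq_norm_sq, real_inner_self_eq_norm_sq]
    have h4 : 0 ≤ σ * (‖A‖ - ‖A'‖) ^ 2 := by positivity
    have h5 : σ * (‖A‖ ^ 2 + ‖A'‖ ^ 2) - 2 * σ * (‖A‖ * ‖A'‖) = σ * (‖A‖ - ‖A'‖) ^ 2 := by ring
    simp only [Complex.zero_re]
    linarith
  · -- the imaginary part
    have h1 := hherm.im_star_dotProduct_mulVec_self x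
    simp only [Complex.zero_im]
    exact h1.symm

/-- the basic inequality -/
lemma basic {β : Type*} [Fintype β] (B : V →ₗ[ℝ] V →ₗ[ℝ] ℝ) (hB : ∀ v w, |B v w| ≤ ‖v‖ * ‖w‖)
    (z : β → V) (hanti : ∀ x y, B (z x) (z y) = - B (z y) (z x)) {σ τ : ℝ} (hτ : |τ| ≤ σ) :
    ((Fintype.card β : ℝ)) ^ 2 ≤
      ∑ i, ∑ j, Real.exp (σ * inner ℝ (z i) (z j)) * Real.cos (τ * B (z i) (z j)) := by
  have h := sum_exp_ge (psd B hB z hanti hτ)
  refine h.trans_eq (Finset.sum_congr rfl fun i _ => Finset.sum_congr rfl fun j _ => ?_)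
  simp only [Matrix.of_apply, Complex.exp_re, Complex.add_re, Complex.add_im, Complex.ofReal_re,
    Complex.ofReal_im, Complex.mul_re, Complex.mul_im, Complex.I_re, Complex.I_im]
  simp

end form

section kernel

lemma int_sin (a : ℝ) (ha : a ≠ 0) : ∫ θ in (0 : ℝ)..Real.pi, Real.sin (a * θ) =
    (1 - Real.cos (a * Real.pi)) / a := by
  rw [intervalIntegral.integral_comp_mul_left (fun x => Real.sin x) ha, integral_sin]
  simp only [mul_zero, Real.cos_zero, smul_eq_mul]
  field_simp

lemma int_zero : ∫ θ in (0 : ℝ)..Real.pi, Real.cos (θ * 0) * Real.sin θ = 2 := by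
  simp only [mul_zero, Real.cos_zero, one_mul, integral_sin, Real.cos_pi]
  norm_num

lemma int_eq (y : ℝ) (h1 : 1 + y ≠ 0) (h2 : 1 - y ≠ 0) :
    ∫ θ in (0 : ℝ)..Real.pi, Real.cos (θ * y) * Real.sin θ =
      (1 + Real.cos (Real.pi * y)) / (1 - y ^ 2) := by
  have e1 : ∀ θ : ℝ, Real.cos (θ * y) * Real.sin θ =
      (1 / 2) * Real.sin ((1 + y) * θ) + (1 / 2) * Real.sin ((1 - y) * θ) := by
    intro θ
    have a1 : (1 + y) * θ = θ + θ * y := by ring
    have a2 : (1 - y) * θ = θ - θ * y := by ring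
    rw [a1, a2, Real.sin_add, Real.sin_sub]
    ring
  simp only [e1]
  rw [intervalIntegral.integral_add, intervalIntegral.integral_const_mul,
    intervalIntegral.integral_const_mul, int_sin _ h1, int_sin _ h2]
  · have a1 : Real.cos ((1 + y) * Real.pi) = - Real.cos (Real.pi * y) := by
      have : (1 + y) * Real.pi = Real.pi * y + Real.pi := by ring
      rw [this, Real.cos_add_pi]
    have a2 : Real.cos ((1 - y) * Real.pi) = - Real.cos (Real.pi * y) := by
      have : (1 - y) * Real.pi = Real.pi - Real.pi * y := by ring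
      rw [this, Real.cos_pi_sub]
    have a3 : 1 - y ^ 2 ≠ 0 := by
      have : 1 - y ^ 2 = (1 + y) * (1 - y) := by ring
      rw [this]
      exact mul_ne_zero h1 h2
    rw [a1, a2]
    field_simp
    ring
  · exact (Continuous.intervalIntegrable (by fun_prop) _ _)
  · exact (Continuous.intervalIntegrable (by fun_prop) _ _)

/-- the kernel is not positive outside `(-1, 1)` -/
lemma int_le (y : ℝ) (hy : 1 ≤ |y|) :
    ∫ θ in (0 : ℝ)..Real.pi, Real.cos (θ * y) * Real.sin θ ≤ 0 := by
  rcases eq_or_lt_of_le hy with h | h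
  · -- |y| = 1
    have e1 : ∀ θ : ℝ, Real.cos (θ * y) * Real.sin θ = Real.cos θ * Real.sin θ := by
      intro θ
      rcases (abs_eq (by norm_num : (0 : ℝ) ≤ 1)).mp h.symm with h3 | h3
      · rw [h3, mul_one]
      · rw [h3, mul_neg_one, Real.cos_neg]
    simp only [e1]
    have e2 : ∫ θ in (0 : ℝ)..Real.pi, Real.cos θ * Real.sin θ = 0 := by
      have e3 : ∀ θ : ℝ, Real.cos θ * Real.sin θ = (1 / 2) * Real.sin (2 * θ) := by
        intro θ
        rw [Real.sin_two_mul]
        ring
      simp only [e3]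
      rw [intervalIntegral.integral_const_mul, int_sin 2 (by norm_num), Real.cos_two_pi]
      norm_num
    rw [e2]
  · have h1 : 1 + y ≠ 0 := by
      intro h3
      have : y = -1 := by linarith
      rw [this] at h
      norm_num at h
    have h2 : 1 - y ≠ 0 := by
      intro h3
      have : y = 1 := by linarith
      rw [this] at h
      norm_num at h
    rw [int_eq y h1 h2]
    have h3 : 1 - y ^ 2 < 0 := by
      have : 1 < |y| ^ 2 := one_lt_pow₀ h (by norm_num)
      rw [sq_abs] at this
      linarith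
    exact div_nonpos_of_nonneg_of_nonpos (by linarith [Real.neg_one_le_cos (Real.pi * y)]) h3.le

end kernel

section main

variable {V : Type*} [NormedAddCommGroup V] [InnerProductSpace ℝ V]

/-- **the linear programming bound** -/
theorem delsarte {β : Type*} [Fintype β] (B : V →ₗ[ℝ] V →ₗ[ℝ] ℝ)
    (hB : ∀ v w, |B v w| ≤ ‖v‖ * ‖w‖) (z : β → V) {D δ : ℝ} (hδ : 0 < δ)
    (hD : ∀ x, ‖z x‖ ^ 2 ≤ D) (hm : ∀ x y, x ≠ y → δ ≤ |B (z x) (z y)|)
    (hanti : ∀ x y, B (z x) (z y) = - B (z y) (z x)) :
    (Fintype.card β : ℝ) ≤ Real.exp (Real.pi * D / δ) := by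
  have hpi := Real.pi_pos
  obtain ⟨σ, hσ⟩ : ∃ σ : ℝ, σ = Real.pi / δ := ⟨_, rfl⟩
  have hσ0 : 0 < σ := by rw [hσ]; positivity
  obtain ⟨N, hN⟩ : ∃ N : ℝ, N = (Fintype.card β : ℝ) := ⟨_, rfl⟩
  rw [← hN]
  -- pointwise
  have h1 : ∀ θ ∈ Set.Icc (0 : ℝ) Real.pi, N ^ 2 * Real.sin θ ≤
      ∑ i, ∑ j, Real.exp (σ * inner ℝ (z i) (z j)) *
        (Real.cos (θ * (B (z i) (z j) / δ)) * Real.sin θ) := by
    intro θ hθ
    have hs : 0 ≤ Real.sin θ := Real.sin_nonneg_of_mem_Icc hθ
    have h2 := basic B hB z hanti (σ := σ) (τ := θ / δ) (by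
      rw [abs_div, abs_of_nonneg hθ.1, abs_of_pos hδ, hσ]
      exact div_le_div_of_nonneg_right hθ.2 hδ.le)
    rw [← hN] at h2
    have h3 := mul_le_mul_of_nonneg_right h2 hs
    refine h3.trans_eq ?_
    rw [Finset.sum_mul]
    refine Finset.sum_congr rfl fun i _ => ?_
    rw [Finset.sum_mul]
    refine Finset.sum_congr rfl fun j _ => ?_
    have : θ / δ * B (z i) (z j) = θ * (B (z i) (z j) / δ) := by ring
    rw [this]
    ring
  have h2 : ∫ θ in (0 : ℝ)..Real.pi, N ^ 2 * Real.sin θ ≤
      ∫ θ in (0 : ℝ)..Real.pi, ∑ i, ∑ j, Real.exp (σ * inner ℝ (z i) (z j)) *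
        (Real.cos (θ * (B (z i) (z j) / δ)) * Real.sin θ) := by
    refine intervalIntegral.integral_mono_on hpi.le ?_ ?_ h1
    · exact (Continuous.intervalIntegrable (by fun_prop) _ _)
    · exact (Continuous.intervalIntegrable (by fun_prop) _ _)
  have h3 : ∫ θ in (0 : ℝ)..Real.pi, N ^ 2 * Real.sin θ = N ^ 2 * 2 := by
    rw [intervalIntegral.integral_const_mul, integral_sin, Real.cos_zero, Real.cos_pi]
    norm_num
  have h4 : ∫ θ in (0 : ℝ)..Real.pi, ∑ i, ∑ j, Real.exp (σ * inner ℝ (z i) (z j)) *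
        (Real.cos (θ * (B (z i) (z j) / δ)) * Real.sin θ) =
      ∑ i, ∑ j, Real.exp (σ * inner ℝ (z i) (z j)) *
        ∫ θ in (0 : ℝ)..Real.pi, Real.cos (θ * (B (z i) (z j) / δ)) * Real.sin θ := by
    rw [intervalIntegral.integral_finset_sum]
    · refine Finset.sum_congr rfl fun i _ => ?_
      rw [intervalIntegral.integral_finset_sum]
      · refine Finset.sum_congr rfl fun j _ => ?_
        rw [intervalIntegral.integral_const_mul]
      · intro j _
        exact (Continuous.intervalIntegrable (by fun_prop) _ _)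
    · intro i _
      exact (Continuous.intervalIntegrable (by fun_prop) _ _)
  have h5 : ∑ i, ∑ j, Real.exp (σ * inner ℝ (z i) (z j)) *
        ∫ θ in (0 : ℝ)..Real.pi, Real.cos (θ * (B (z i) (z j) / δ)) * Real.sin θ ≤
      ∑ _i : β, Real.exp (σ * D) * 2 := by
    refine Finset.sum_le_sum fun i _ => ?_
    have h6 : B (z i) (z i) = 0 := by
      have := hanti i i
      linarith
    have h7 : ∀ j ∈ Finset.univ, j ≠ i → Real.exp (σ * inner ℝ (z i) (z j)) *
        (∫ θ in (0 : ℝ)..Real.pi, Real.cos (θ * (B (z i) (z j) / δ)) * Real.sin θ) ≤ 0 := by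
      intro j _ hji
      refine mul_nonpos_of_nonneg_of_nonpos (Real.exp_pos _).le (int_le _ ?_)
      rw [abs_div, abs_of_pos hδ, le_div_iff₀ hδ, one_mul]
      exact hm i j hji.symm
    rw [← Finset.add_sum_erase _ _ (Finset.mem_univ i)]
    have h8 : ∑ j ∈ Finset.univ.erase i, Real.exp (σ * inner ℝ (z i) (z j)) *
        (∫ θ in (0 : ℝ)..Real.pi, Real.cos (θ * (B (z i) (z j) / δ)) * Real.sin θ) ≤ 0 :=
      Finset.sum_nonpos fun j hj => h7 j (Finset.mem_univ j) (Finset.ne_of_mem_erase hj)
    have h9 : (∫ θ in (0 : ℝ)..Real.pi, Real.cos (θ * (B (z i) (z i) / δ)) * Real.sin θ) = 2 := by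
      rw [h6, zero_div]
      exact int_zero
    rw [h9]
    have h10 : Real.exp (σ * inner ℝ (z i) (z i)) ≤ Real.exp (σ * D) := by
      refine Real.exp_le_exp.mpr (mul_le_mul_of_nonneg_left ?_ hσ0.le)
      rw [real_inner_self_eq_norm_sq]
      exact hD i
    linarith
  have h6 : N ^ 2 * 2 ≤ N * (Real.exp (σ * D) * 2) := by
    rw [← h3]
    refine h2.trans ?_
    rw [h4]
    refine h5.trans_eq ?_
    rw [Finset.sum_const, Finset.card_univ, nsmul_eq_mul, hN]
  have h7 : Real.pi * D / δ = σ * D := by rw [hσ]; ring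
  rw [h7]
  rcases Nat.eq_zero_or_pos (Fintype.card β) with h0 | h0
  · rw [hN, h0]
    simp only [Nat.cast_zero]
    positivity
  · have hN0 : 0 < N := by rw [hN]; exact_mod_cast h0
    have h8 : N * N ≤ N * Real.exp (σ * D) := by nlinarith
    exact le_of_mul_le_mul_left h8 hN0

end main

section info

open Pool.Agent.TH161.LW

variable {Ω β : Type*} [Fintype Ω]

/-- the number of random variables with values in `{0, …, 2^J - 1}` all pairs of which are
unbalanced -/
theorem info3 [Nonempty Ω] {J : ℕ} {c : β → Ω → ℕ} {δ : ℝ} (hδ : 0 < δ)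
    {S : Finset β} (hc : ∀ x ω, c x ω < 2 ^ J)
    (hS : ∀ x ∈ S, ∀ y ∈ S, x ≠ y → δ * Fintype.card Ω ≤ |BT c x y|) :
    (S.card : ℝ) ≤ Real.exp (Real.pi * J / δ) := by
  have hΩ : (0 : ℝ) < Fintype.card Ω := by exact_mod_cast Fintype.card_pos
  have hval : ∀ x y, BB Ω J (vec J (c x)) (vec J (c y)) = BT c x y / Fintype.card Ω := fun x y =>
    BB_vec J _ _ (hc x) (hc y)
  have h1 := delsarte (BB Ω J) (BB_le J) (fun x : S => vec J (c x)) (D := J) (δ := δ) hδ
    (fun x => (norm_vec J (c x) (hc x)).le)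
    (fun x y hxy => by
      rw [hval, abs_div, abs_of_pos hΩ, le_div_iff₀ hΩ]
      exact hS x x.2 y y.2 fun h => hxy (Subtype.ext h))
    (fun x y => by
      rw [hval, hval, BT_anti, neg_div])
  simpa using h1

end info

end Pool.Agent.J4H63.BR
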