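import Pool.Agent.H293R3.BC.Count
import Pool.Agent.J4H63.BR.Main
import Pool.Agent.Y352.KSR.Final
import Pool.Agent.Results.MP_c890a7_co.LogRate

/-!
# The rate for the minimal balance constants of posets of width `w`
-/

set_option autoImplicit false

open Filter Topology

namespace Pool.Agent.J4H63.BR

open Pool.Agent.H293R3.BC Pool.Agent.TH161.LW
open Pool.Agent.Y352.KSR (CC po eN_card eP_card eP_zero IsDelta delta_nonneg delta_le)

/-- the rate for relations on `Fin n` -/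
theorem big3 : ∃ B : ℝ, 1 ≤ B ∧ ∀ ε : ℝ, 0 < ε → ε < 1 / 2 → ∀ (n : ℕ)
    (r : Fin n → Fin n → Prop), IsPo r → (∃ s : Finset (Fin n),
      Real.exp (B * Real.log (2 / ε) / ε) ≤ s.card ∧
      ∀ a ∈ s, ∀ b ∈ s, a ≠ b → ¬ r a b) →
    ∃ x y : Fin n, ¬ r x y ∧ ¬ r y x ∧ 1 / 2 - ε ≤ min
      ((Nat.card {σ : Equiv.Perm (Fin n) //
          (∀ a b, r a b → σ a ≤ σ b) ∧ σ x < σ y} : ℝ) /
        (Nat.card {σ : Equiv.Perm (Fin n) // ∀ a b, r a b → σ a ≤ σ b} : ℝ))
      ((Nat.card {σ : Equiv.Perm (Fin n) //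
          (∀ a b, r a b → σ a ≤ σ b) ∧ σ y < σ x} : ℝ) /
        (Nat.card {σ : Equiv.Perm (Fin n) // ∀ a b, r a b → σ a ≤ σ b} : ℝ)) := by
  obtain ⟨B, hB, hW⟩ := kahn_saks_rate3
  refine ⟨B, hB, fun ε hε hε2 n r hr ⟨s, hsW, hs⟩ => ?_⟩
  let _ : PartialOrder (CC n) := po r hr
  have hcard : Fintype.card (CC n) = n := Fintype.card_fin n
  obtain ⟨x, y, -, h1, h2⟩ := hW ε hε hε2.le (CC n) (s : Finset (CC n))
    (fun a ha b hb hab => hs a ha b hb hab) hsW
  have he : (0 : ℝ) < eN (CC n) := by exact_mod_cast Pool.Agent.TH161.KS.eN_pos (CC n)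
  have hpos : (0 : ℝ) < (1 / 2 - ε) * eN (CC n) := mul_pos (by linarith) he
  refine ⟨x, y, ?_, ?_, ?_⟩
  · intro h
    have h3 : eP (CC n) y x = 0 := eP_zero (x := x) (y := y) h
    rw [h3, Nat.cast_zero] at h2
    linarith
  · intro h
    have h3 : eP (CC n) x y = 0 := eP_zero (x := y) (y := x) h
    rw [h3, Nat.cast_zero] at h1
    linarith
  · have e1 := eN_card hcard
    have e2 := eP_card hcard x y
    have e3 := eP_card hcard y x
    have e1' : eN (CC n) = Nat.card {σ : Equiv.Perm (Fin n) // ∀ a b, r a b → σ a ≤ σ b} := e1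
    have e2' : eP (CC n) x y = Nat.card {σ : Equiv.Perm (Fin n) //
      (∀ a b, r a b → σ a ≤ σ b) ∧ σ x < σ y} := e2
    have e3' : eP (CC n) y x = Nat.card {σ : Equiv.Perm (Fin n) //
      (∀ a b, r a b → σ a ≤ σ b) ∧ σ y < σ x} := e3
    rw [← e1', ← e2', ← e3']
    refine le_min ?_ ?_
    · rw [le_div_iff₀ he]; exact h1
    · rw [le_div_iff₀ he]; exact h2

/-- the rate -/
theorem rate3 : ∃ B : ℝ, 1 ≤ B ∧ ∀ δ : ℕ → ℝ, IsDelta δ → ∀ (ε : ℝ) (w : ℕ), 0 < ε → ε ≤ 1 / 2 →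
    Real.exp (B * Real.log (2 / ε) / ε) ≤ w → 1 / 2 - ε ≤ δ w := by
  obtain ⟨B, hB, hW⟩ := big3
  refine ⟨B, hB, fun δ hδ ε w hε hε2 hw => ?_⟩
  rcases hε2.lt_or_eq with hε3 | rfl
  · have hw1 : 1 ≤ w := by
      have h1 : (0 : ℝ) < w := lt_of_lt_of_le (Real.exp_pos _) hw
      exact_mod_cast h1
    obtain ⟨n₀, r₀, -, -, h₀⟩ := exists_poset w hw1
    rw [hδ w]
    refine le_csInf ⟨_, n₀, r₀, h₀.po.1, h₀.po.2.1, h₀.po.2.2, h₀.wid, h₀.wid_le, rfl⟩ ?_
    rintro d ⟨n, r, h1, h2, h3, ⟨s, hs1, hs2⟩, -, rfl⟩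
    obtain ⟨x, y, hx, hy, hxy⟩ := hW ε hε hε3 n r ⟨h1, h2, h3⟩ ⟨s, by rw [hs1]; exact hw, hs2⟩
    refine hxy.trans (le_csSup ?_ ⟨x, y, hx, hy, rfl⟩)
    refine ⟨1, ?_⟩
    rintro t ⟨u, v, -, -, rfl⟩
    refine (min_le_left _ _).trans (div_le_one_of_le₀ ?_ (by positivity))
    have h5 : Nat.card {σ : Equiv.Perm (Fin n) // (∀ a b, r a b → σ a ≤ σ b) ∧ σ u < σ v} ≤
        Nat.card {σ : Equiv.Perm (Fin n) // ∀ a b, r a b → σ a ≤ σ b} :=
      Nat.card_le_card_of_injective (fun σ => ⟨σ.1, σ.2.1⟩) (fun a b h => by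
        rw [Subtype.mk.injEq] at h
        exact Subtype.ext h)
    exact_mod_cast h5
  · rw [sub_self]
    exact delta_nonneg hδ w


/-- the upper bound of the starting result `LogRate` -/
lemma delta_le_log {δ : ℕ → ℝ} (hδ : IsDelta δ) (w : ℕ) (hw : 1 ≤ w) :
    δ w ≤ 1 / 2 - Real.log w / (20000 * (w : ℝ)) :=
  (Pool.Agent.Results.MP_c890a7_co.LogRate.result δ hδ).1 w hw

/-- growth -/
lemma growth {B : ℝ} (hB : 1 ≤ B) {δ : ℕ → ℝ} (hδ : IsDelta δ)
    (hR : ∀ (ε : ℝ) (w : ℕ), 0 < ε → ε ≤ 1 / 2 →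
      Real.exp (B * Real.log (2 / ε) / ε) ≤ w → 1 / 2 - ε ≤ δ w)
    (w v : ℕ) (hw : 1 ≤ w) (hv : Real.exp (10 ^ 12 * B * w) ≤ v) : δ w < δ v := by
  have hw1 : (1 : ℝ) ≤ w := by exact_mod_cast hw
  rcases Nat.lt_or_ge 1 w with h2 | h2
  · have hw2 : (2 : ℝ) ≤ w := by exact_mod_cast h2
    have hw0 : (0 : ℝ) < w := by linarith
    have hℓ2 : Real.log 2 ≤ Real.log w := Real.log_le_log (by norm_num) hw2
    have hl2 := Real.log_two_gt_d9
    have hℓ0 : 0 < Real.log w := by linarith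
    have hℓw : Real.log w ≤ w := (Real.log_le_sub_one_of_pos hw0).trans (by linarith)
    have h1 := delta_le_log hδ w hw
    obtain ⟨ε, hε⟩ : ∃ ε : ℝ, ε = Real.log w / (40000 * (w : ℝ)) := ⟨_, rfl⟩
    have hε0 : 0 < ε := by rw [hε]; positivity
    have hε2 : ε ≤ 1 / 2 := by
      rw [hε, div_le_iff₀ (by positivity)]
      linarith
    have h3 : 1 / 2 - ε ≤ δ v := by
      refine hR ε v hε0 hε2 ((Real.exp_le_exp.mpr ?_).trans hv)
      have h4 : Real.log (2 / ε) ≤ 20 * Real.log w := by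
        have e1 : 2 / ε = 80000 * w / Real.log w := by
          rw [hε]
          field_simp
          norm_num
        have e2 : 2 / ε ≤ (w : ℝ) ^ 20 := by
          rw [e1, div_le_iff₀ hℓ0]
          have e3 : (2 : ℝ) ^ 19 ≤ (w : ℝ) ^ 19 := pow_le_pow_left₀ (by norm_num) hw2 19
          have e4 : 80000 ≤ (w : ℝ) ^ 19 * Real.log w := by
            calc (80000 : ℝ) ≤ 2 ^ 19 * (0.69 : ℝ) := by norm_num
              _ ≤ (w : ℝ) ^ 19 * Real.log w := by
                  refine mul_le_mul e3 (by linarith) (by norm_num) (by positivity)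
          calc 80000 * (w : ℝ) ≤ (w : ℝ) ^ 19 * Real.log w * w :=
                mul_le_mul_of_nonneg_right e4 hw0.le
            _ = (w : ℝ) ^ 20 * Real.log w := by ring
        calc Real.log (2 / ε) ≤ Real.log ((w : ℝ) ^ 20) := Real.log_le_log (by positivity) e2
          _ = 20 * Real.log w := by rw [Real.log_pow]; norm_num
      have h5 : 0 ≤ Real.log (2 / ε) := by
        have := log_two_div_ge hε0 hε2
        linarith
      calc B * Real.log (2 / ε) / ε ≤ B * (20 * Real.log w) / ε := by gcongr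
        _ = 800000 * B * w := by
            rw [hε]
            field_simp
            norm_num
        _ ≤ 10 ^ 12 * B * w := by
            have : 0 ≤ B * w := by positivity
            nlinarith
    have h4 : Real.log w / (40000 * (w : ℝ)) < Real.log w / (20000 * (w : ℝ)) :=
      div_lt_div_of_pos_left hℓ0 (by positivity) (by linarith)
    rw [← hε] at h4
    linarith
  · have hw1' : w = 1 := by omega
    subst hw1'
    have h1 := delta_le hδ 1 le_rfl
    have h3 : 1 / 2 - (1 / 5 : ℝ) ≤ δ v := by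
      refine hR (1 / 5) v (by norm_num) (by norm_num) ((Real.exp_le_exp.mpr ?_).trans hv)
      have h4 : Real.log (2 / (1 / 5 : ℝ)) ≤ 10 := by
        have := Real.log_le_sub_one_of_pos (show (0 : ℝ) < 2 / (1 / 5) by norm_num)
        linarith
      have h5 : 0 ≤ Real.log (2 / (1 / 5 : ℝ)) := Real.log_nonneg (by norm_num)
      calc B * Real.log (2 / (1 / 5)) / (1 / 5) ≤ B * 10 / (1 / 5) := by gcongr
        _ = 50 * B := by ring
        _ ≤ 10 ^ 12 * B * ((1 : ℕ) : ℝ) := by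
            push_cast
            linarith
    norm_num at h1
    linarith

/-- growth with a gap -/
lemma growth_gap {B : ℝ} (hB : 1 ≤ B) {δ : ℕ → ℝ} (hδ : IsDelta δ)
    (hR : ∀ (ε : ℝ) (w : ℕ), 0 < ε → ε ≤ 1 / 2 →
      Real.exp (B * Real.log (2 / ε) / ε) ≤ w → 1 / 2 - ε ≤ δ w)
    (w v : ℕ) (hw : 2 ≤ w) (hv : Real.exp (10 ^ 12 * B * w) ≤ v) :
    δ w + Real.log w / (40000 * (w : ℝ)) ≤ δ v := by
  have hw2 : (2 : ℝ) ≤ w := by exact_mod_cast hw
  have hw0 : (0 : ℝ) < w := by linarith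
  have hℓ2 : Real.log 2 ≤ Real.log w := Real.log_le_log (by norm_num) hw2
  have hl2 := Real.log_two_gt_d9
  have hℓ0 : 0 < Real.log w := by linarith
  have hℓw : Real.log w ≤ w := (Real.log_le_sub_one_of_pos hw0).trans (by linarith)
  have h1 := delta_le_log hδ w (by omega)
  obtain ⟨ε, hε⟩ : ∃ ε : ℝ, ε = Real.log w / (40000 * (w : ℝ)) := ⟨_, rfl⟩
  have hε0 : 0 < ε := by rw [hε]; positivity
  have hε2 : ε ≤ 1 / 2 := by
    rw [hε, div_le_iff₀ (by positivity)]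
    linarith
  have h3 : 1 / 2 - ε ≤ δ v := by
    refine hR ε v hε0 hε2 ((Real.exp_le_exp.mpr ?_).trans hv)
    have h4 : Real.log (2 / ε) ≤ 20 * Real.log w := by
      have e1 : 2 / ε = 80000 * w / Real.log w := by
        rw [hε]
        field_simp
        norm_num
      have e2 : 2 / ε ≤ (w : ℝ) ^ 20 := by
        rw [e1, div_le_iff₀ hℓ0]
        have e3 : (2 : ℝ) ^ 19 ≤ (w : ℝ) ^ 19 := pow_le_pow_left₀ (by norm_num) hw2 19
        have e4 : 80000 ≤ (w : ℝ) ^ 19 * Real.log w := by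
          calc (80000 : ℝ) ≤ 2 ^ 19 * (0.69 : ℝ) := by norm_num
            _ ≤ (w : ℝ) ^ 19 * Real.log w := by
                refine mul_le_mul e3 (by linarith) (by norm_num) (by positivity)
        calc 80000 * (w : ℝ) ≤ (w : ℝ) ^ 19 * Real.log w * w :=
              mul_le_mul_of_nonneg_right e4 hw0.le
          _ = (w : ℝ) ^ 20 * Real.log w := by ring
      calc Real.log (2 / ε) ≤ Real.log ((w : ℝ) ^ 20) := Real.log_le_log (by positivity) e2
        _ = 20 * Real.log w := by rw [Real.log_pow]; norm_num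
    calc B * Real.log (2 / ε) / ε ≤ B * (20 * Real.log w) / ε := by gcongr
      _ = 800000 * B * w := by
          rw [hε]
          field_simp
          norm_num
      _ ≤ 10 ^ 12 * B * w := by
          have : 0 ≤ B * w := by positivity
          nlinarith
  have h4 : Real.log w / (20000 * (w : ℝ)) = ε + ε := by
    rw [hε]
    field_simp
    norm_num
  rw [← hε]
  rw [h4] at h1
  linarith

/-- the sum of `log u / u ^ 2` by telescoping -/
lemma tele (u : ℕ) (hu : 1 ≤ u) : Real.log u / (u : ℝ) ^ 2 ≤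
    2 * ((Real.log u + 2) / u) - 2 * ((Real.log (u + 1 : ℕ) + 2) / (u + 1 : ℕ)) := by
  have hu1 : (1 : ℝ) ≤ u := by exact_mod_cast hu
  have hu0 : (0 : ℝ) < u := by linarith
  have h1 : Real.log ((u + 1 : ℕ) : ℝ) ≤ Real.log u + 1 / u := by
    have h2 : ((u + 1 : ℕ) : ℝ) = u * (1 + 1 / u) := by
      push_cast
      field_simp
    rw [h2, Real.log_mul hu0.ne' (by positivity)]
    have h3 := Real.log_le_sub_one_of_pos (show (0 : ℝ) < 1 + 1 / u by positivity)
    linarith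
  have hl : 0 ≤ Real.log u := Real.log_nonneg hu1
  have h2 : (Real.log (u + 1 : ℕ) + 2) / (u + 1 : ℕ) ≤ (Real.log u + 1 / u + 2) / (u + 1) := by
    push_cast at h1 ⊢
    gcongr
  have h3 : (Real.log u + 2) / u - (Real.log u + 1 / u + 2) / (u + 1) =
      (Real.log u + 1) / (u * (u + 1)) := by
    field_simp
    ring
  have h4 : Real.log u / (2 * (u : ℝ) ^ 2) ≤ (Real.log u + 1) / (u * (u + 1)) := by
    rw [div_le_div_iff₀ (by positivity) (by positivity)]
    nlinarith [mul_nonneg hl hu0.le, mul_nonneg hl (mul_nonneg hu0.le (sub_nonneg.mpr hu1)),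
      mul_pos hu0 hu0]
  have h5 : Real.log u / (u : ℝ) ^ 2 = 2 * (Real.log u / (2 * (u : ℝ) ^ 2)) := by
    field_simp
  rw [h5]
  linarith

/-- a step of a definite size -/
lemma step {B : ℝ} (hB : 1 ≤ B) {δ : ℕ → ℝ} (hδ : IsDelta δ)
    (hR : ∀ (ε : ℝ) (w : ℕ), 0 < ε → ε ≤ 1 / 2 →
      Real.exp (B * Real.log (2 / ε) / ε) ≤ w → 1 / 2 - ε ≤ δ w)
    (w : ℕ) (hw : 2 ≤ w) : ∃ u : ℕ, w ≤ u ∧ (u : ℝ) ≤ Real.exp (10 ^ 12 * B * w) ∧
      δ u + Real.log u / (400000 * (u : ℝ) ^ 2) ≤ δ (u + 1) := by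
  by_contra hcon
  push Not at hcon
  obtain ⟨X, hX⟩ : ∃ X : ℝ, X = Real.exp (10 ^ 12 * B * w) := ⟨_, rfl⟩
  rw [← hX] at hcon
  have hw2 : (2 : ℝ) ≤ w := by exact_mod_cast hw
  have hw0 : (0 : ℝ) < w := by linarith
  have hXw : (w : ℝ) ≤ X := by
    have h3 : (w : ℝ) ≤ 10 ^ 12 * B * w := by nlinarith
    rw [hX]
    have h4 := Real.add_one_le_exp (10 ^ 12 * B * (w : ℝ))
    linarith
  have h1 : ∀ k : ℕ, ((w + k : ℕ) : ℝ) ≤ X + 1 → δ (w + k) ≤ δ w +
      (2 * ((Real.log w + 2) / w) - 2 * ((Real.log (w + k : ℕ) + 2) / (w + k : ℕ))) / 400000 := by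
    intro k
    induction k with
    | zero => intro _; simp
    | succ k ih =>
      intro hk
      have h2 : ((w + k : ℕ) : ℝ) ≤ X := by
        push_cast at hk ⊢
        linarith
      have h3 := hcon (w + k) (by omega) h2
      have h4 := ih (by linarith)
      have h5 := tele (w + k) (by omega)
      have h6 : Real.log (w + k : ℕ) / (400000 * ((w + k : ℕ) : ℝ) ^ 2) =
          Real.log (w + k : ℕ) / ((w + k : ℕ) : ℝ) ^ 2 / 400000 := by
        field_simp
      rw [h6] at h3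
      have h7 : w + (k + 1) = w + k + 1 := by ring
      rw [h7]
      linarith
  obtain ⟨v, hv⟩ : ∃ v : ℕ, v = ⌈X⌉₊ := ⟨_, rfl⟩
  have hv1 : X ≤ v := by rw [hv]; exact Nat.le_ceil _
  have hX0 : 0 ≤ X := by rw [hX]; positivity
  have hv2 : (v : ℝ) ≤ X + 1 := by rw [hv]; exact (Nat.ceil_lt_add_one hX0).le
  have hwv : w ≤ v := by
    have : (w : ℝ) ≤ v := hXw.trans hv1
    exact_mod_cast this
  have h2 := growth_gap hB hδ hR w v hw (by rw [← hX]; exact hv1)
  have h3 := h1 (v - w) (by rw [Nat.add_sub_cancel' hwv]; exact hv2)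
  rw [Nat.add_sub_cancel' hwv] at h3
  have hv0 : (0 : ℝ) < v := by
    have : (w : ℝ) ≤ v := hXw.trans hv1
    linarith
  have hlv : 0 ≤ Real.log v := Real.log_nonneg (by
    have : (w : ℝ) ≤ v := hXw.trans hv1
    linarith)
  have h4 : 0 ≤ (Real.log v + 2) / v := by positivity
  have hl2 := Real.log_two_gt_d9
  have hℓ2 : Real.log 2 ≤ Real.log w := Real.log_le_log (by norm_num) hw2
  have h5 : 2 * ((Real.log w + 2) / w) ≤ 8 * (Real.log w / w) := by
    have : (Real.log w + 2) / w ≤ (4 * Real.log w) / w :=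
      div_le_div_of_nonneg_right (by linarith) hw0.le
    rw [mul_div_assoc] at this
    linarith
  have h6 : Real.log w / (40000 * (w : ℝ)) = Real.log w / w / 40000 := by
    field_simp
  have h7 : 0 < Real.log w / w := div_pos (by linarith) hw0
  rw [h6] at h2
  linarith

/-- the theorem -/
theorem main3 : ∃ C : ℝ, 0 < C ∧ ∀ δ : ℕ → ℝ, IsDelta δ →
    (∀ (ε : ℝ) (w : ℕ), 0 < ε → ε ≤ 1 / 2 →
      Real.exp (C * Real.log (2 / ε) / ε) ≤ w → 1 / 2 - ε ≤ δ w) ∧
    (∀ w : ℕ, 16 ≤ w → 1 / 2 - C * Real.log (Real.log w) / Real.log w ≤ δ w) ∧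
    (∀ w v : ℕ, 1 ≤ w → Real.exp (C * w) ≤ v → δ w < δ v) ∧
    (∀ w : ℕ, 1 ≤ w → ∃ u : ℕ, w ≤ u ∧ (u : ℝ) ≤ Real.exp (C * w) ∧
      δ u < δ (u + 1)) ∧
    (∀ w : ℕ, 2 ≤ w → ∃ u : ℕ, w ≤ u ∧ (u : ℝ) ≤ Real.exp (C * w) ∧
      δ u + Real.log u / (400000 * (u : ℝ) ^ 2) ≤ δ (u + 1)) := by
  obtain ⟨B, hB, hR⟩ := rate3
  have hB0 : 0 < B := by linarith
  obtain ⟨D, hD⟩ : ∃ D : ℝ, D = 10 ^ 12 * B := ⟨_, rfl⟩
  have hBD : B ≤ D := by rw [hD]; linarith
  have hD2 : 2 ≤ D := by rw [hD]; linarith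
  have hD0 : 0 < D := by linarith
  refine ⟨D, hD0, fun δ hδ => ?_⟩
  have r1 : ∀ (ε : ℝ) (w : ℕ), 0 < ε → ε ≤ 1 / 2 →
      Real.exp (D * Real.log (2 / ε) / ε) ≤ w → 1 / 2 - ε ≤ δ w := by
    intro ε w hε hε2 hw
    refine hR δ hδ ε w hε hε2 ((Real.exp_le_exp.mpr ?_).trans hw)
    have h1 := log_two_div_ge hε hε2
    gcongr
  have r3 : ∀ w v : ℕ, 1 ≤ w → Real.exp (D * w) ≤ v → δ w < δ v := by
    intro w v hw hv
    rw [hD] at hv
    exact growth hB hδ (hR δ hδ) w v hw hv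
  refine ⟨r1, ?_, r3, ?_, fun w hw => ?_⟩
  rotate_left 2
  · rw [hD]
    exact step hB hδ (hR δ hδ) w hw
  · intro w hw
    obtain ⟨ℒ, hℒ⟩ : ∃ ℒ : ℝ, ℒ = Real.log w := ⟨_, rfl⟩
    have hw16 : (16 : ℝ) ≤ w := by exact_mod_cast hw
    have hw0 : (0 : ℝ) < w := by linarith
    have hℒ1 : 2.7 ≤ ℒ - 0.05 := by
      have h1 : Real.log 16 ≤ Real.log w := Real.log_le_log (by norm_num) hw16
      have h2 : Real.log 16 = 4 * Real.log 2 := by
        have : (16 : ℝ) = 2 ^ 4 := by norm_num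
        rw [this, Real.log_pow]
        norm_num
      have := Real.log_two_gt_d9
      rw [hℒ]
      linarith
    have hℒ0 : 0 < ℒ := by linarith
    rw [← hℒ]
    obtain ⟨lam, hlam⟩ : ∃ lam : ℝ, lam = Real.log ℒ := ⟨_, rfl⟩
    have hlam1 : 1 ≤ lam := by
      rw [hlam, Real.le_log_iff_exp_le hℒ0]
      have := Real.exp_one_lt_d9
      linarith
    have hlam0 : 0 < lam := by linarith
    rw [← hlam]
    obtain ⟨ε, hε⟩ : ∃ ε : ℝ, ε = D * lam / ℒ := ⟨_, rfl⟩
    rw [← hε]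
    have hε0 : 0 < ε := by rw [hε]; positivity
    rcases le_or_gt ε (1 / 2) with hε2 | hε2
    · refine hR δ hδ ε w hε0 hε2 ?_
      rw [← Real.le_log_iff_exp_le hw0, ← hℒ]
      have h1 : Real.log (2 / ε) ≤ lam := by
        rw [hlam]
        refine Real.log_le_log (by positivity) ?_
        rw [div_le_iff₀ hε0, hε, mul_div_assoc', le_div_iff₀ hℒ0]
        calc 2 * ℒ ≤ ℒ * (D * 1) := by nlinarith
          _ ≤ ℒ * (D * lam) := by gcongr
      rw [div_le_iff₀ hε0]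
      calc B * Real.log (2 / ε) ≤ D * lam := mul_le_mul hBD h1 (by
            have := log_two_div_ge hε0 hε2
            linarith) hD0.le
        _ = ℒ * ε := by rw [hε]; field_simp
    · have := delta_nonneg hδ w
      linarith
  · intro w hw
    by_contra hcon
    push Not at hcon
    obtain ⟨X, hX⟩ : ∃ X : ℝ, X = Real.exp (D * w) := ⟨_, rfl⟩
    rw [← hX] at hcon
    have hXw : (w : ℝ) ≤ X := by
      have hw1 : (1 : ℝ) ≤ w := by exact_mod_cast hw
      have h3 : (w : ℝ) ≤ D * w := by nlinarith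
      rw [hX]
      have h4 := Real.add_one_le_exp (D * (w : ℝ))
      linarith
    -- `δ` does not increase up to `⌊X⌋ + 1`
    have h1 : ∀ k : ℕ, ((w + k : ℕ) : ℝ) ≤ X + 1 → δ (w + k) ≤ δ w := by
      intro k
      induction k with
      | zero => intro _; exact le_rfl
      | succ k ih =>
        intro hk
        have h2 : ((w + k : ℕ) : ℝ) ≤ X := by
          push_cast at hk ⊢
          linarith
        exact (hcon (w + k) (by omega) h2).trans (ih (by linarith))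
    obtain ⟨v, hv⟩ : ∃ v : ℕ, v = ⌈X⌉₊ := ⟨_, rfl⟩
    have hv1 : X ≤ v := by rw [hv]; exact Nat.le_ceil _
    have hX0 : 0 ≤ X := by rw [hX]; positivity
    have hv2 : (v : ℝ) ≤ X + 1 := by rw [hv]; exact (Nat.ceil_lt_add_one hX0).le
    have hwv : w ≤ v := by
      have : (w : ℝ) ≤ v := hXw.trans hv1
      exact_mod_cast this
    have h2 := r3 w v hw (by rw [← hX]; exact hv1)
    have h3 := h1 (v - w) (by rw [Nat.add_sub_cancel' hwv]; exact hv2)
    rw [Nat.add_sub_cancel' hwv] at h3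
    linarith

end Pool.Agent.J4H63.BR
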